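import Pool.Agent.Lib.MP_5f4cd2_co.Defs

namespace Pool.Agent.Lib.MP_5f4cd2_co

open Module Finset

variable {F : Type} [Field F] [Fintype F]

/-- A product of fewer than `k (q-1)` linear forms with values in an extension sums to zero. -/
lemma sum_prod_eq_zero {K : Type} [Field K] [Algebra F K] {k : ℕ} {ι : Type} [DecidableEq ι]
    (S : Finset ι) (L : ι → (Fin k → F) →ₗ[F] K) (h : S.card < (Fintype.card F - 1) * k) :
    ∑ b : Fin k → F, ∏ i ∈ S, L i b = 0 := by
  classical
  have h1 : ∀ b : Fin k → F, ∏ i ∈ S, L i b =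
      ∑ g ∈ Fintype.piFinset (fun _ : S => (univ : Finset (Fin k))),
        (∏ i : S, L i (fun j => if g i = j then 1 else 0)) *
          algebraMap F K (∏ i : S, b (g i)) := by
    intro b
    rw [← prod_coe_sort S]
    simp_rw [LinearMap.pi_apply_eq_sum_univ (L _) b]
    rw [prod_univ_sum]
    refine sum_congr rfl fun g _ => ?_
    rw [map_prod, ← prod_mul_distrib]
    refine prod_congr rfl fun i _ => ?_
    rw [Algebra.smul_def, mul_comm]
  simp_rw [h1]
  rw [sum_comm]
  refine sum_eq_zero fun g _ => ?_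
  rw [← mul_sum, ← map_sum]
  have h2 := MvPolynomial.sum_eval_eq_zero (K := F) (σ := Fin k)
    (∏ i : S, MvPolynomial.X (g i)) (by
      refine lt_of_le_of_lt (MvPolynomial.totalDegree_finsetProd _ _) ?_
      simpa using h)
  simp only [map_prod, MvPolynomial.eval_X] at h2
  rw [h2, map_zero, mul_zero]

theorem lower_one {k m : ℕ} (hm : 1 ≤ m) (hk : 1 ≤ k) (M : Finset (Fin k → Fin m → F))
    (hM : ∀ b : Fin k → F, b ≠ 0 → ∀ c : Fin m → F, ∃ A ∈ M, ∑ i, b i • A i = c) :
    ∃ j, (Fintype.card F ^ m - 1) ∣ j ∧ (Fintype.card F - 1) * k ≤ j ∧ j + 1 ≤ M.card := by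
  classical
  obtain ⟨p, hp⟩ := CharP.exists F
  have : Fact p.Prime := ⟨CharP.char_is_prime F p⟩
  have : NeZero m := ⟨by omega⟩
  let K := FiniteField.Extension F p m
  let : Fintype K := Fintype.ofFinite K
  have hK : Fintype.card K = Fintype.card F ^ m := by
    rw [← Nat.card_eq_fintype_card, ← Nat.card_eq_fintype_card]
    exact FiniteField.natCard_extension F p m
  let ψ : (Fin m → F) ≃ₗ[F] K := LinearEquiv.ofFinrankEq _ _ (by
    rw [FiniteField.finrank_extension]; simp)
  obtain ⟨A₀, hA₀, -⟩ := hM (fun _ => 1) (by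
    intro h
    exact one_ne_zero (congrFun h ⟨0, hk⟩)) 0
  let L : (Fin k → Fin m → F) → (Fin k → F) →ₗ[F] K := fun A =>
    ψ.toLinearMap ∘ₗ Fintype.linearCombination F (A - A₀)
  have hL : ∀ A b, L A b = ψ (∑ i, b i • A i - ∑ i, b i • A₀ i) := by
    intro A b
    simp [L, Fintype.linearCombination_apply, smul_sub, sum_sub_distrib]
  set S := M.erase A₀ with hS
  have hSc : S.card + 1 = M.card := card_erase_add_one hA₀
  by_contra hcon
  push Not at hcon
  have h1 : ∀ c : Kˣ, ∑ b : Fin k → F, ∏ A ∈ S, (1 - (c : K) * L A b) = 1 := by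
    intro c
    rw [sum_eq_single 0]
    · simp
    · intro b _ hb
      obtain ⟨A, hA, hAb⟩ := hM b hb (ψ.symm (c⁻¹ : Kˣ) + ∑ i, b i • A₀ i)
      have hLA : L A b = (c⁻¹ : Kˣ) := by
        rw [hL, hAb]; simp
      refine prod_eq_zero (i := A) (mem_erase.mpr ⟨?_, hA⟩) ?_
      · rintro rfl
        rw [hL] at hLA
        simp only [sub_self, map_zero] at hLA
        exact (c⁻¹).ne_zero hLA.symm
      · rw [hLA]; simp
    · simp
  have h2 : ∑ c : Kˣ, ∑ b : Fin k → F, ∏ A ∈ S, (1 - (c : K) * L A b) = 0 := by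
    have h3 : ∀ (c : Kˣ) (b : Fin k → F), ∏ A ∈ S, (1 - (c : K) * L A b) =
        ∑ t ∈ S.powerset, (-1) ^ t.card * ((c : K) ^ t.card * ∏ A ∈ t, L A b) := by
      intro c b
      simp_rw [sub_eq_add_neg]
      rw [prod_one_add]
      refine sum_congr rfl fun t _ => ?_
      rw [prod_neg, prod_mul_distrib, prod_const]
    simp_rw [h3]
    rw [sum_comm]
    simp_rw [sum_comm (s := (univ : Finset Kˣ))]
    rw [sum_comm]
    refine sum_eq_zero fun t ht => ?_
    simp_rw [← mul_sum, ← sum_mul]
    rw [← mul_sum]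
    by_cases hlt : t.card < (Fintype.card F - 1) * k
    · rw [sum_prod_eq_zero t L hlt, mul_zero, mul_zero]
    · have hle : t.card ≤ S.card := card_le_card (mem_powerset.mp ht)
      have hnd : ¬ (Fintype.card K - 1) ∣ t.card := by
        rw [hK]
        intro hd
        have := hcon _ hd (by omega)
        omega
      rw [FiniteField.sum_pow_units, if_neg hnd, zero_mul, mul_zero]
  simp_rw [h1] at h2
  have h4 := FiniteField.sum_pow_units K 0
  simp only [pow_zero, dvd_zero, if_true] at h4
  rw [h4] at h2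
  exact one_ne_zero (neg_eq_zero.mp h2)

omit [Fintype F] in
lemma rank_aux {r k : ℕ} (b : Fin k → F) (hb : b ≠ 0) :
    (Matrix.of (Fin.snoc (α := fun _ => Fin (r + k) → F)
      (fun i : Fin r => Fin.append (Pi.single i (1 : F)) (0 : Fin k → F))
      (Fin.append (0 : Fin r → F) b))).rank = r + 1 := by
  classical
  rw [LinearIndependent.rank_matrix, Fintype.card_fin]
  rw [Fintype.linearIndependent_iff]
  intro g hg
  rw [Fin.sum_univ_castSucc] at hg
  have hl : g (Fin.last r) = 0 := by
    obtain ⟨j, hj⟩ := Function.ne_iff.mp hb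
    have := congrFun hg (Fin.natAdd r j)
    simpa [Matrix.row_apply, Finset.sum_apply, show b j ≠ 0 from hj] using this
  intro i
  refine Fin.lastCases hl (fun i => ?_) i
  have := congrFun hg (Fin.castAdd k i)
  simpa [Matrix.row_apply, Finset.sum_apply, Pi.single_apply] using this

theorem lower {r k m : ℕ} (hm : 1 ≤ m) (hk : 1 ≤ k)
    (M : Finset (Matrix (Fin (r + k)) (Fin m) F)) (hM : Covers (r + 1) M) (N : ℕ)
    (hN : ∀ j, (Fintype.card F ^ m - 1) ∣ j → (Fintype.card F - 1) * k ≤ j → N ≤ j + 1) :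
    (Fintype.card F ^ m) ^ r * N ≤ M.card := by
  classical
  let top : Matrix (Fin (r + k)) (Fin m) F → (Fin r → Fin m → F) := fun A i => A (Fin.castAdd k i)
  have hfib : ∀ C₀ : Fin r → Fin m → F, N ≤ (M.filter fun A => top A = C₀).card := by
    intro C₀
    obtain ⟨j, h1, h2, h3⟩ := lower_one hm hk
      ((M.filter fun A => top A = C₀).image fun A i => A (Fin.natAdd r i)) (by
        intro b hb c
        obtain ⟨A, hA, hAb⟩ := hM _ (rank_aux (r := r) b hb)
          (Matrix.of (Fin.snoc (α := fun _ => Fin m → F) C₀ c))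
        refine ⟨_, mem_image.mpr ⟨A, mem_filter.mpr ⟨hA, ?_⟩, rfl⟩, ?_⟩
        · funext i x
          have := congrFun (congrFun hAb (Fin.castSucc i)) x
          simpa [Matrix.mul_apply, Fin.sum_univ_add, Pi.single_apply, top] using this
        · funext x
          have := congrFun (congrFun hAb (Fin.last r)) x
          simpa [Matrix.mul_apply, Fin.sum_univ_add, Finset.sum_apply] using this)
    exact (hN j h1 h2).trans (h3.trans card_image_le)
  rw [card_eq_sum_card_fiberwise (f := top) (t := univ) (fun _ _ => mem_univ _)]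
  calc (Fintype.card F ^ m) ^ r * N = ∑ _C₀ : Fin r → Fin m → F, N := by simp
    _ ≤ _ := sum_le_sum fun C₀ _ => hfib C₀

theorem covers_univ {r k m : ℕ} [DecidableEq F] :
    Covers r (univ : Finset (Matrix (Fin k) (Fin m) F)) := by
  intro B hB C
  have hsurj : Function.Surjective B.mulVecLin := by
    rw [← LinearMap.range_eq_top]
    apply Submodule.eq_top_of_finrank_eq
    rw [Matrix.rank] at hB
    rw [hB]; simp
  choose a ha using fun x : Fin m => hsurj fun i => C i x
  refine ⟨Matrix.of fun i x => a x i, mem_univ _, ?_⟩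
  ext i x
  have := congrFun (ha x) i
  simpa [Matrix.mul_apply, Matrix.mulVec, dotProduct] using this

end Pool.Agent.Lib.MP_5f4cd2_co
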