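import Mathlib

namespace Pool.Agent.Lib.MP_5f4cd2_co

/-- `M` is a set of `k × m` matrices such that for every `r × k` matrix `B` of rank `r` and every
`r × m` matrix `C` some `A ∈ M` has `B * A = C`. -/
def Covers {F : Type} [Field F] {k m : ℕ} (r : ℕ) (M : Finset (Matrix (Fin k) (Fin m) F)) : Prop :=
  ∀ B : Matrix (Fin r) (Fin k) F, B.rank = r →
    ∀ C : Matrix (Fin r) (Fin m) F, ∃ A ∈ M, B * A = C

/-- `T F n k r` is `T_q(n,k,r)` in the matrix form of the problem file: the least size of a
covering set of `k × (n - k)` matrices over `F`. -/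
noncomputable def T (F : Type) [Field F] (n k r : ℕ) : ℕ :=
  sInf {N | ∃ M : Finset (Matrix (Fin k) (Fin (n - k)) F), Covers r M ∧ M.card = N}

end Pool.Agent.Lib.MP_5f4cd2_co
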