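import Pool.Agent.Lib.MP_5f4cd2_co.Defs

namespace Pool.Agent.Lib.MP_5f4cd2_co

open Module Finset
open scoped LinearAlgebra.Projectivization

variable {F : Type} [Field F] [Fintype F]

omit [Fintype F] in
lemma exists_quot {m : ℕ} (j : ℙ F (Fin m → F)) :
    ∃ π : (Fin m → F) →ₗ[F] (Fin (m - 1) → F), ∀ x, π x = 0 → ∃ c : F, x = c • j.rep := by
  set W : Submodule F (Fin m → F) := Submodule.span F {j.rep} with hW
  have h1 : finrank F W = 1 := finrank_span_singleton j.rep_nonzero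
  have h2 : finrank F ((Fin m → F) ⧸ W) = finrank F (Fin (m - 1) → F) := by
    have := Submodule.finrank_quotient_add_finrank W
    simp only [finrank_fintype_fun_eq_card, Fintype.card_fin] at this ⊢
    omega
  let e := LinearEquiv.ofFinrankEq _ _ h2
  refine ⟨e.toLinearMap ∘ₗ W.mkQ, fun x hx => ?_⟩
  have : W.mkQ x = 0 := by
    apply e.injective
    simpa using hx
  rw [Submodule.mkQ_apply, Submodule.Quotient.mk_eq_zero, hW, Submodule.mem_span_singleton] at this
  obtain ⟨c, hc⟩ := this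
  exact ⟨c, hc.symm⟩

theorem core {m k : ℕ} {G : Type} [AddCommGroup G] [DecidableEq G]
    (P Pc : Finset G) (v : ℙ F (Fin m → F) → G) (l : ℙ F (Fin m → F) → G →+ ℤ)
    (hl : ∀ i j, i ≠ j → l j (v j) < l j (v i))
    (hP : ∀ s ∈ P, ∀ j, s - v j ∈ Pc)
    (hk : k + (m - 1) * Pc.card ≤ m * P.card) :
    ∃ M : Finset (Matrix (Fin k) (Fin m) F),
      Covers 1 M ∧ M.card ≤ 1 + (Fintype.card F - 1) * P.card := by
  classical
  let : Fintype (ℙ F (Fin m → F)) := Fintype.ofFinite _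
  choose π hπ using fun j : ℙ F (Fin m → F) => exists_quot j
  let ev : G → ((P → Fin m → F) →ₗ[F] (Fin m → F)) := fun g =>
    if h : g ∈ P then LinearMap.proj (⟨g, h⟩ : P) else 0
  let Φ : (P → Fin m → F) →ₗ[F] (Pc → Fin (m - 1) → F) :=
    LinearMap.pi fun p => ∑ j, π j ∘ₗ ev (p.1 + v j)
  have hker : finrank F (Fin k → F) ≤ finrank F (LinearMap.ker Φ) := by
    have h1 := LinearMap.finrank_range_add_finrank_ker Φ
    have h2 : finrank F (LinearMap.range Φ) ≤ finrank F (Pc → Fin (m - 1) → F) :=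
      Submodule.finrank_le _
    simp only [finrank_pi_fintype, finrank_self, sum_const, card_univ, Fintype.card_coe,
      Fintype.card_fin, smul_eq_mul, mul_one] at h1 h2 ⊢
    nlinarith
  obtain ⟨φ, hφ⟩ := finrank_le_iff_exists_linearMap.mp hker
  -- the key property of the code
  have key : ∀ x : P → Fin m → F, Φ x = 0 → x ≠ 0 → ∀ j : ℙ F (Fin m → F),
      ∃ s : P, ∃ c : F, c ≠ 0 ∧ x s = c • j.rep := by
    intro x hx hx0 j
    have hne : (univ.filter fun s : P => x s ≠ 0).Nonempty := by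
      by_contra h
      apply hx0
      funext s
      by_contra hs
      exact h ⟨s, by simpa using hs⟩
    obtain ⟨s, hs, hmax⟩ := exists_max_image _ (fun s : P => l j s.1) hne
    have hs0 : x s ≠ 0 := by simpa using hs
    have hp := congrFun hx ⟨s.1 - v j, hP s.1 s.2 j⟩
    simp only [Φ, LinearMap.pi_apply, LinearMap.sum_apply, LinearMap.comp_apply,
      Pi.zero_apply] at hp
    rw [sum_eq_single j] at hp
    · have : ev (s.1 - v j + v j) x = x s := by
        simp [ev, s.2]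
      rw [this] at hp
      obtain ⟨c, hc⟩ := hπ j _ hp
      refine ⟨s, c, ?_, hc⟩
      rintro rfl
      exact hs0 (by simpa using hc)
    · intro i _ hij
      have : ev (s.1 - v j + v i) x = 0 := by
        by_cases h : s.1 - v j + v i ∈ P
        · simp only [ev, dif_pos h, LinearMap.proj_apply]
          by_contra hne'
          have h1 := hmax ⟨_, h⟩ (by simpa using hne')
          have h2 := hl i j hij
          simp only [map_add, map_sub] at h1
          omega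
        · simp [ev, h]
      rw [this, map_zero]
    · simp
  let A : P → Matrix (Fin k) (Fin m) F := fun s =>
    Matrix.of fun i => (φ (fun j => if i = j then 1 else 0)).1 s
  have hA : ∀ (B : Matrix (Fin 1) (Fin k) F) (s : P), (B * A s) 0 = (φ (B 0)).1 s := by
    intro B s
    funext j
    rw [LinearMap.pi_apply_eq_sum_univ φ (B 0)]
    simp only [Matrix.mul_apply, A, Matrix.of_apply, Submodule.coe_sum, Finset.sum_apply,
      Submodule.coe_smul, Pi.smul_apply, smul_eq_mul]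
  refine ⟨insert 0 (((univ.erase (0 : F)) ×ˢ (univ : Finset P)).image fun q => q.1 • A q.2),
    ?_, ?_⟩
  · intro B hB C
    have hB0 : B 0 ≠ 0 := by
      intro h
      have : B = 0 := by
        ext i j
        rw [Subsingleton.elim i 0, h]; rfl
      rw [this] at hB
      simp at hB
    by_cases hC : C 0 = 0
    · refine ⟨0, mem_insert_self _ _, ?_⟩
      ext i j
      rw [Subsingleton.elim i 0, hC]; simp
    · have hx0 : (φ (B 0)).1 ≠ 0 := by
        intro h
        apply hB0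
        apply hφ
        rw [map_zero]
        exact Subtype.ext h
      obtain ⟨s, c, hc, hs⟩ := key (φ (B 0)).1 (φ (B 0)).2 hx0 (Projectivization.mk F (C 0) hC)
      obtain ⟨a, ha⟩ := Projectivization.exists_smul_eq_mk_rep F (C 0) hC
      refine ⟨((a⁻¹ : Fˣ) * c⁻¹ : F) • A s, mem_insert_of_mem (mem_image.mpr
        ⟨(((a⁻¹ : Fˣ) * c⁻¹ : F), s), ?_, rfl⟩), ?_⟩
      · simp [hc]
      · ext i j
        rw [Subsingleton.elim i 0, Matrix.mul_smul, Matrix.smul_apply, hA, hs, ← ha]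
        simp only [Units.smul_def, Pi.smul_apply, smul_eq_mul, Units.val_inv_eq_inv_val]
        have := a.ne_zero
        field_simp
  · refine (card_insert_le _ _).trans ?_
    rw [add_comm]
    refine Nat.add_le_add_left (card_image_le.trans ?_) _
    simp [card_product, card_erase_of_mem]

theorem box {m k d s L : ℕ} (hs : Nat.card (ℙ F (Fin m → F)) ≤ s ^ d)
    (hk : k + (m - 1) * (d * s ^ (d + 2) * (L + 1) ^ (d + 1)) ≤
      m * (d * s ^ (d + 2) * L ^ (d + 1))) :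
    ∃ M : Finset (Matrix (Fin k) (Fin m) F),
      Covers 1 M ∧ M.card ≤ 1 + (Fintype.card F - 1) * (d * s ^ (d + 2) * L ^ (d + 1)) := by
  classical
  let : Fintype (ℙ F (Fin m → F)) := Fintype.ofFinite _
  obtain ⟨a⟩ : Nonempty (ℙ F (Fin m → F) ↪ (Fin d → Fin s)) := by
    apply Function.Embedding.nonempty_of_card_le
    rw [← Nat.card_eq_fintype_card]
    simpa using hs
  let P : Finset ((Fin d → ℤ) × ℤ) :=
    (Fintype.piFinset fun _ => Ico (0 : ℤ) (s * L)) ×ˢ Ico (0 : ℤ) (d * s ^ 2 * L)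
  let Pc : Finset ((Fin d → ℤ) × ℤ) :=
    (Fintype.piFinset fun _ => Ico (-s : ℤ) (s * L)) ×ˢ Ico (-(d * s ^ 2) : ℤ) (d * s ^ 2 * L)
  have hPc : P.card = d * s ^ (d + 2) * L ^ (d + 1) := by
    have h1 : (s * L - 0 : ℤ).toNat = s * L := by
      rw [sub_zero]; exact_mod_cast Int.toNat_natCast (s * L)
    have h2 : (d * s ^ 2 * L - 0 : ℤ).toNat = d * s ^ 2 * L := by
      rw [sub_zero]; exact_mod_cast Int.toNat_natCast (d * s ^ 2 * L)
    simp only [P, card_product, Fintype.card_piFinset, Int.card_Ico, h1, h2, prod_const,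
      card_univ, Fintype.card_fin]
    ring
  have hPcc : Pc.card = d * s ^ (d + 2) * (L + 1) ^ (d + 1) := by
    have h1 : (s * L - (-s) : ℤ).toNat = s * (L + 1) := by
      rw [show (s * L - (-s) : ℤ) = ((s * (L + 1) : ℕ) : ℤ) by push_cast; ring]
      exact Int.toNat_natCast _
    have h2 : (d * s ^ 2 * L - (-(d * s ^ 2)) : ℤ).toNat = d * s ^ 2 * (L + 1) := by
      rw [show (d * s ^ 2 * L - (-(d * s ^ 2)) : ℤ) = ((d * s ^ 2 * (L + 1) : ℕ) : ℤ) by
        push_cast; ring]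
      exact Int.toNat_natCast _
    simp only [Pc, card_product, Fintype.card_piFinset, Int.card_Ico, h1, h2, prod_const,
      card_univ, Fintype.card_fin]
    rw [mul_pow]
    ring
  let v : ℙ F (Fin m → F) → (Fin d → ℤ) × ℤ := fun j =>
    (fun i => ((a j i : ℕ) : ℤ), ∑ i, ((a j i : ℕ) : ℤ) ^ 2)
  let l : ℙ F (Fin m → F) → ((Fin d → ℤ) × ℤ) →+ ℤ := fun j =>
    { toFun := fun y => y.2 - 2 * ∑ i, ((a j i : ℕ) : ℤ) * y.1 i
      map_zero' := by simp
      map_add' := by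
        intro x y
        simp only [Prod.snd_add, Prod.fst_add, Pi.add_apply, mul_add, sum_add_distrib]
        ring }
  rw [← hPc]
  refine core P Pc v l ?_ ?_ (by rw [hPc, hPcc]; exact hk)
  · intro i j hij
    have hne : ∃ x, a i x ≠ a j x := by
      by_contra h
      push Not at h
      exact hij (a.injective (funext h))
    obtain ⟨x, hx⟩ := hne
    have hpos : 0 < ∑ y, (((a i y : ℕ) : ℤ) - ((a j y : ℕ) : ℤ)) ^ 2 := by
      refine sum_pos' (fun y _ => sq_nonneg _) ⟨x, mem_univ _, ?_⟩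
      have : ((a i x : ℕ) : ℤ) - ((a j x : ℕ) : ℤ) ≠ 0 := by
        intro h
        apply hx
        apply Fin.ext
        omega
      positivity
    have hexp : ∑ y, (((a i y : ℕ) : ℤ) - ((a j y : ℕ) : ℤ)) ^ 2 =
        ∑ y, ((a i y : ℕ) : ℤ) ^ 2 - 2 * ∑ y, ((a j y : ℕ) : ℤ) * ((a i y : ℕ) : ℤ)
          + ∑ y, ((a j y : ℕ) : ℤ) ^ 2 := by
      rw [mul_sum, ← sum_sub_distrib, ← sum_add_distrib]
      exact sum_congr rfl fun y _ => by ring
    have hsq : ∑ y, ((a j y : ℕ) : ℤ) * ((a j y : ℕ) : ℤ) = ∑ y, ((a j y : ℕ) : ℤ) ^ 2 :=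
      sum_congr rfl fun y _ => by ring
    simp only [l, v, AddMonoidHom.coe_mk, ZeroHom.coe_mk]
    linarith
  · intro p hp j
    simp only [P, Pc, mem_product, Fintype.mem_piFinset, mem_Ico, v, Prod.fst_sub, Prod.snd_sub,
      Pi.sub_apply] at hp ⊢
    have hb : ∑ i, ((a j i : ℕ) : ℤ) ^ 2 ≤ d * s ^ 2 := by
      calc ∑ i, ((a j i : ℕ) : ℤ) ^ 2 ≤ ∑ _i : Fin d, (s : ℤ) ^ 2 := by
            refine sum_le_sum fun i _ => ?_
            have := (a j i).2
            gcongr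
        _ = d * s ^ 2 := by simp
    have hb0 : 0 ≤ ∑ i, ((a j i : ℕ) : ℤ) ^ 2 := sum_nonneg fun i _ => sq_nonneg _
    refine ⟨fun i => ?_, ?_, ?_⟩
    · have := hp.1 i
      have h2 := (a j i).2
      constructor <;> omega
    · linarith [hp.2.1]
    · linarith [hp.2.2]

lemma succ_pow_mul_le (L j : ℕ) (h : j ≤ L) : (L + 1) ^ j * (L - j) ≤ L ^ (j + 1) := by
  induction j with
  | zero => simp
  | succ j ih =>
    have h1 := ih (by omega)
    obtain ⟨u, rfl⟩ : ∃ u, L = j + 1 + u := ⟨L - (j + 1), by omega⟩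
    have e1 : j + 1 + u - (j + 1) = u := by omega
    have e2 : j + 1 + u - j = u + 1 := by omega
    rw [e1]
    rw [e2] at h1
    calc (j + 1 + u + 1) ^ (j + 1) * u = (j + 1 + u + 1) ^ j * ((j + 1 + u + 1) * u) := by ring
      _ ≤ (j + 1 + u + 1) ^ j * ((u + 1) * (j + 1 + u)) := by
          apply Nat.mul_le_mul_left; nlinarith
      _ = ((j + 1 + u + 1) ^ j * (u + 1)) * (j + 1 + u) := by ring
      _ ≤ (j + 1 + u) ^ (j + 1) * (j + 1 + u) := by gcongr
      _ = _ := by ring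

lemma succ_pow_le_two (L d : ℕ) (h : 2 * d ≤ L) (hL : 0 < L) : (L + 1) ^ d ≤ 2 * L ^ d := by
  have h1 := succ_pow_mul_le L d (by omega)
  have h2 : L ≤ 2 * (L - d) := by omega
  have : (L + 1) ^ d * L ≤ 2 * L ^ d * L := by
    calc (L + 1) ^ d * L ≤ (L + 1) ^ d * (2 * (L - d)) := by gcongr
      _ = 2 * ((L + 1) ^ d * (L - d)) := by ring
      _ ≤ 2 * L ^ (d + 1) := by gcongr
      _ = _ := by ring
  exact Nat.le_of_mul_le_mul_right this hL

lemma succ_pow_succ_le (L d : ℕ) : (L + 1) ^ (d + 1) ≤ L ^ (d + 1) + (d + 1) * (L + 1) ^ d := by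
  induction d with
  | zero => simp
  | succ d ih =>
    have h : L ^ (d + 1) ≤ (L + 1) ^ (d + 1) := by gcongr; omega
    calc (L + 1) ^ (d + 1 + 1) = (L + 1) ^ (d + 1) * (L + 1) := by ring
      _ ≤ (L ^ (d + 1) + (d + 1) * (L + 1) ^ d) * (L + 1) := by gcongr
      _ = L ^ (d + 1 + 1) + L ^ (d + 1) + (d + 1) * (L + 1) ^ (d + 1) := by ring
      _ ≤ L ^ (d + 1 + 1) + (L + 1) ^ (d + 1) + (d + 1) * (L + 1) ^ (d + 1) := by gcongr
      _ = _ := by ring

lemma numeric (m d L' : ℕ) (hm : 1 ≤ m) :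
    L' ^ (d + 1) + (m - 1) * (L' + 2 * (d + 1) * m + 1) ^ (d + 1) ≤
      m * (L' + 2 * (d + 1) * m) ^ (d + 1) := by
  set L := L' + 2 * (d + 1) * m with hL
  have h2 : (L + 1) ^ d ≤ 2 * L ^ d := succ_pow_le_two L d (by nlinarith) (by nlinarith)
  have h3 := succ_pow_succ_le L d
  have h4 : L' ^ (d + 1) + 2 * (d + 1) * m * L ^ d ≤ L ^ (d + 1) := by
    have : L' ^ d ≤ L ^ d := by gcongr; omega
    calc L' ^ (d + 1) + 2 * (d + 1) * m * L ^ d = L' * L' ^ d + 2 * (d + 1) * m * L ^ d := by ring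
      _ ≤ L' * L ^ d + 2 * (d + 1) * m * L ^ d := by gcongr
      _ = L * L ^ d := by rw [hL]; ring
      _ = _ := by ring
  obtain ⟨u, rfl⟩ : ∃ u, m = u + 1 := ⟨m - 1, by omega⟩
  rw [Nat.add_sub_cancel]
  have h5 : (L + 1) ^ (d + 1) ≤ L ^ (d + 1) + (d + 1) * (2 * L ^ d) :=
    h3.trans (by gcongr)
  calc L' ^ (d + 1) + u * (L + 1) ^ (d + 1)
      ≤ L' ^ (d + 1) + u * (L ^ (d + 1) + (d + 1) * (2 * L ^ d)) := by gcongr
    _ ≤ (L' ^ (d + 1) + 2 * (d + 1) * (u + 1) * L ^ d) + u * L ^ (d + 1) := by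
        nlinarith [Nat.zero_le ((d + 1) * L ^ d)]
    _ ≤ L ^ (d + 1) + u * L ^ (d + 1) := by gcongr
    _ = _ := by ring

theorem upper {m k d : ℕ} (hm : 1 ≤ m) (hd : 1 ≤ d) :
    ∃ M : Finset (Matrix (Fin k) (Fin m) F), Covers 1 M ∧
      (M.card : ℝ) ≤ 1 + ((Fintype.card F : ℝ) - 1) *
        ((k : ℝ) ^ (1 / ((d : ℝ) + 1)) + 12 * ((d : ℝ) + 1) * m *
          (((Fintype.card F : ℝ) ^ m - 1) / ((Fintype.card F : ℝ) - 1)) ^
            (((d : ℝ) + 2) / (((d : ℝ) + 1) * d))) ^ (d + 1) := by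
  have hq : 1 < Fintype.card F := Fintype.one_lt_card
  have hqR : (1 : ℝ) < Fintype.card F := by exact_mod_cast hq
  set t : ℕ := Nat.card (ℙ F (Fin m → F)) with ht
  have hcard := Projectivization.card' (k := F) (V := Fin m → F)
  rw [← ht, Nat.card_eq_fintype_card, Nat.card_eq_fintype_card, Fintype.card_fun,
    Fintype.card_fin] at hcard
  have htR : ((Fintype.card F : ℝ) ^ m - 1) / ((Fintype.card F : ℝ) - 1) = t := by
    rw [div_eq_iff (by linarith)]
    have : ((Fintype.card F ^ m : ℕ) : ℝ) = ((t * (Fintype.card F - 1) + 1 : ℕ) : ℝ) := by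
      rw [hcard]
    push_cast [Nat.cast_sub hq.le] at this
    linarith
  have ht1 : 1 ≤ t := by
    rcases Nat.eq_zero_or_pos t with h | h
    · rw [h] at hcard
      have : 1 < Fintype.card F ^ m := Nat.one_lt_pow (by omega) hq
      omega
    · exact h
  have ht1R : (1 : ℝ) ≤ t := by exact_mod_cast ht1
  have hdR : (1 : ℝ) ≤ d := by exact_mod_cast hd
  rw [htR]
  set y : ℝ := (t : ℝ) ^ (1 / (d : ℝ)) with hy
  have hy1 : 1 ≤ y := Real.one_le_rpow ht1R (by positivity)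
  have hyd : y ^ d = t := by
    rw [hy, ← Real.rpow_natCast, ← Real.rpow_mul (by positivity)]
    rw [one_div, inv_mul_cancel₀ (by positivity), Real.rpow_one]
  set s : ℕ := ⌈y⌉₊ with hs
  have hs1 : y ≤ s := Nat.le_ceil y
  have hs2 : (s : ℝ) ≤ 2 * y := by
    have := Nat.ceil_lt_add_one (show 0 ≤ y by linarith)
    linarith
  have hts : t ≤ s ^ d := by
    have : (t : ℝ) ≤ (s : ℝ) ^ d := by rw [← hyd]; gcongr
    exact_mod_cast this
  set τ : ℝ := (t : ℝ) ^ (((d : ℝ) + 2) / (((d : ℝ) + 1) * d)) with hτ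
  have hτ0 : 0 ≤ τ := by positivity
  have hτe : τ ^ (d + 1) = y ^ (d + 2) := by
    rw [hτ, hy, ← Real.rpow_natCast, ← Real.rpow_natCast, ← Real.rpow_mul (by positivity),
      ← Real.rpow_mul (by positivity)]
    congr 1
    push_cast
    field_simp
  set D : ℕ := d * s ^ (d + 2) with hD
  have hsR : (1 : ℝ) ≤ s := by linarith
  have hDpos : (0 : ℝ) < D := by rw [hD]; push_cast; positivity
  set δ : ℝ := (D : ℝ) ^ (1 / ((d : ℝ) + 1)) with hδ
  have hδ0 : 0 < δ := by positivity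
  have hδe : δ ^ (d + 1) = D := by
    rw [hδ, ← Real.rpow_natCast, ← Real.rpow_mul (by positivity)]
    push_cast
    rw [one_div, inv_mul_cancel₀ (by positivity), Real.rpow_one]
  have hδτ : δ ≤ 4 * τ := by
    refine le_of_pow_le_pow_left₀ (n := d + 1) (by omega) (by positivity) ?_
    rw [hδe, mul_pow, hτe, hD]
    have h2 : (d : ℝ) ≤ 2 ^ d := by exact_mod_cast (Nat.lt_two_pow_self).le
    push_cast
    calc (d : ℝ) * (s : ℝ) ^ (d + 2) ≤ 2 ^ d * (2 * y) ^ (d + 2) := by gcongr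
      _ = 4 ^ (d + 1) * y ^ (d + 2) := by
          rw [show (4 : ℝ) = 2 * 2 by norm_num, mul_pow, mul_pow]; ring
  set x : ℝ := (k : ℝ) ^ (1 / ((d : ℝ) + 1)) with hx
  have hx0 : 0 ≤ x := by positivity
  have hxe : x ^ (d + 1) = k := by
    rw [hx, ← Real.rpow_natCast, ← Real.rpow_mul (by positivity)]
    push_cast
    rw [one_div, inv_mul_cancel₀ (by positivity), Real.rpow_one]
  set L' : ℕ := ⌈x / δ⌉₊ with hL'
  have hL1 : x ≤ δ * L' := by
    have := Nat.le_ceil (x / δ)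
    rw [div_le_iff₀ hδ0] at this
    linarith
  have hL2 : δ * L' ≤ x + δ := by
    have := Nat.ceil_lt_add_one (show 0 ≤ x / δ by positivity)
    have h2 : δ * (L' : ℝ) ≤ δ * (x / δ + 1) := by gcongr
    rw [mul_add, mul_div_cancel₀ _ hδ0.ne'] at h2
    linarith
  have hkD : k ≤ D * L' ^ (d + 1) := by
    have : (k : ℝ) ≤ D * (L' : ℝ) ^ (d + 1) := by
      rw [← hxe, ← hδe, ← mul_pow]; gcongr
    exact_mod_cast this
  set L : ℕ := L' + 2 * (d + 1) * m with hL
  obtain ⟨M, hM, hMc⟩ := box (F := F) (m := m) (k := k) (d := d) (s := s) (L := L) hts (by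
    have h := numeric m d L' hm
    rw [← hD]
    calc k + (m - 1) * (D * (L + 1) ^ (d + 1))
        ≤ D * L' ^ (d + 1) + (m - 1) * (D * (L + 1) ^ (d + 1)) := by gcongr
      _ = D * (L' ^ (d + 1) + (m - 1) * (L + 1) ^ (d + 1)) := by ring
      _ ≤ D * (m * L ^ (d + 1)) := by gcongr
      _ = _ := by ring)
  refine ⟨M, hM, ?_⟩
  rw [← hD] at hMc
  have h1 : (M.card : ℝ) ≤ 1 + ((Fintype.card F : ℝ) - 1) * (D * (L : ℝ) ^ (d + 1)) := by
    have : (M.card : ℝ) ≤ ((1 + (Fintype.card F - 1) * (D * L ^ (d + 1)) : ℕ) : ℝ) := by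
      exact_mod_cast hMc
    push_cast [Nat.cast_sub hq.le] at this
    exact this
  refine h1.trans ?_
  have hmR : (1 : ℝ) ≤ m := by exact_mod_cast hm
  have h2 : δ * L ≤ x + 12 * ((d : ℝ) + 1) * m * τ := by
    have h3 : (1 : ℝ) ≤ ((d : ℝ) + 1) * m := by nlinarith
    rw [hL]
    push_cast
    have h4 : δ * (3 * (((d : ℝ) + 1) * m)) ≤ (4 * τ) * (3 * (((d : ℝ) + 1) * m)) := by gcongr
    nlinarith
  rw [← hδe, ← mul_pow]
  have : (0 : ℝ) ≤ Fintype.card F - 1 := by linarith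
  gcongr

end Pool.Agent.Lib.MP_5f4cd2_co
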